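import Mathlib

set_option autoImplicit false
set_option linter.unusedSectionVars false

/-!
# Bases of subspaces adapted to a filtration by coordinates
-/

namespace Pool.Agent.Q4.Gcd

open Finset Module

variable {k : Type*} [Field k] {ι : Type*} [Fintype ι] [DecidableEq ι]

/-- greedy choice of a basis -/
lemma greedy {V : Type*} [AddCommGroup V] [Module k V] (v : ι → V) (c : ι → ℝ) (s : Finset ι) :
    ∃ P : Finset ι, P ⊆ s ∧ LinearIndepOn k v (P : Set ι) ∧
      ∀ j ∈ s, v j ∈ Submodule.span k (v '' {i | i ∈ P ∧ c i ≤ c j}) := by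
  classical
  induction s using Finset.induction_on_max_value (f := c) with
  | empty => exact ⟨∅, Finset.empty_subset _, by simp, by simp⟩
  | insert a s ha hmax ih =>
    obtain ⟨P, hPs, hP, hsp⟩ := ih
    by_cases h : v a ∈ Submodule.span k (v '' (P : Set ι))
    · refine ⟨P, hPs.trans (Finset.subset_insert _ _), hP, ?_⟩
      intro j hj
      rcases Finset.mem_insert.1 hj with rfl | hj
      · convert h using 3
        ext i
        simp only [Set.mem_setOf_eq, Finset.mem_coe]
        exact ⟨fun h => h.1, fun h => ⟨h, hmax _ (hPs h)⟩⟩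
      · exact hsp j hj
    · refine ⟨insert a P, Finset.insert_subset_insert _ hPs, ?_, ?_⟩
      · rw [Finset.coe_insert]
        exact LinearIndepOn.insert hP h
      · intro j hj
        rcases Finset.mem_insert.1 hj with rfl | hj
        · apply Submodule.subset_span
          exact ⟨j, ⟨Finset.mem_insert_self _ _, le_rfl⟩, rfl⟩
        · refine Submodule.span_mono ?_ (hsp j hj)
          apply Set.image_mono
          rintro i ⟨h1, h2⟩
          exact ⟨Finset.mem_insert_of_mem h1, h2⟩

/-- **Adapted bases**: a subspace of `ι → k` has a basis which is the standard one on the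
complement of a set `C` and whose other entries have larger weight. -/
theorem adapted (U : Submodule k (ι → k)) (c : ι → ℝ) :
    ∃ (P : Finset ι) (b : ι → ι → k), P.card = finrank k U ∧ (∀ i ∈ P, b i ∈ U) ∧
      (∀ i ∈ P, ∀ j ∈ P, b i j = if i = j then 1 else 0) ∧
      (∀ i ∈ P, ∀ j, b i j ≠ 0 → c i ≤ c j) := by
  classical
  set v : ι → Dual k U := fun i => (LinearMap.proj i).comp U.subtype with hv
  have hva : ∀ i (u : U), v i u = (u : ι → k) i := fun i u => rfl
  obtain ⟨P, -, hP, hsp⟩ := greedy (k := k) v c Finset.univ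
  have hP' : LinearIndependent k (fun i : P => v i) := hP
  -- evaluation
  set ev : U →ₗ[k] (P → k) := LinearMap.pi (fun i => v i) with hev
  have heva : ∀ (u : U) (i : P), ev u i = (u : ι → k) i := fun u i => rfl
  have hinj : LinearMap.ker ev = ⊥ := by
    rw [LinearMap.ker_eq_bot']
    intro u hu
    apply Subtype.ext
    funext j
    have h1 : ∀ f ∈ Submodule.span k (v '' {i | i ∈ P ∧ c i ≤ c j}), f u = 0 := by
      intro f hf
      induction hf using Submodule.span_induction with
      | mem x hx =>
        obtain ⟨i, hi, rfl⟩ := hx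
        exact congrFun hu ⟨i, hi.1⟩
      | zero => rfl
      | add x y _ _ hx hy => rw [LinearMap.add_apply, hx, hy, add_zero]
      | smul a x _ hx => rw [LinearMap.smul_apply, hx, smul_zero]
    exact h1 _ (hsp j (Finset.mem_univ j))
  have hsurj : LinearMap.range ev = ⊤ := by
    by_contra hne
    obtain ⟨f, hf0, hf⟩ := Submodule.exists_le_ker_of_lt_top _ (lt_top_iff_ne_top.2 hne)
    apply hf0
    have h1 : ∑ i : P, f (Pi.single i 1) • v i = 0 := by
      ext u
      have h2 : f (ev u) = 0 := hf ⟨u, rfl⟩
      have h3 : ev u = ∑ i : P, (ev u i) • (Pi.single i (1 : k) : P → k) := by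
        funext j
        simp [Finset.sum_apply, Pi.single_apply]
      rw [h3, map_sum] at h2
      simp only [map_smul, smul_eq_mul] at h2
      rw [LinearMap.zero_apply, ← h2, LinearMap.sum_apply]
      refine Finset.sum_congr rfl fun i _ => ?_
      rw [LinearMap.smul_apply, smul_eq_mul, mul_comm]
      rfl
    have h2 := Fintype.linearIndependent_iff.1 hP' _ h1
    refine LinearMap.pi_ext' fun i => ?_
    refine LinearMap.ext_ring ?_
    simpa using h2 i
  set e : U ≃ₗ[k] (P → k) := LinearEquiv.ofBijective ev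
    ⟨LinearMap.ker_eq_bot.1 hinj, LinearMap.range_eq_top.1 hsurj⟩ with he
  refine ⟨P, fun i => if h : i ∈ P then (e.symm (Pi.single ⟨i, h⟩ 1) : ι → k) else 0, ?_, ?_, ?_, ?_⟩
  · rw [LinearEquiv.finrank_eq e, Module.finrank_fintype_fun_eq_card, Fintype.card_coe]
  · intro i hi
    simp only [dif_pos hi]
    exact Subtype.mem _
  · intro i hi j hj
    simp only [dif_pos hi]
    have h1 : e (e.symm (Pi.single ⟨i, hi⟩ 1)) ⟨j, hj⟩ = (Pi.single ⟨i, hi⟩ (1 : k) : P → k) ⟨j, hj⟩ := by
      rw [LinearEquiv.apply_symm_apply]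
    have h2 : e (e.symm (Pi.single ⟨i, hi⟩ 1)) ⟨j, hj⟩
        = ((e.symm (Pi.single ⟨i, hi⟩ 1) : U) : ι → k) j := rfl
    rw [h2] at h1
    rw [h1, Pi.single_apply]
    by_cases hij : i = j
    · subst hij; simp
    · have : (⟨j, hj⟩ : P) ≠ ⟨i, hi⟩ := fun h => hij (Subtype.ext_iff.1 h).symm
      rw [if_neg this, if_neg hij]
  · intro i hi j hne
    simp only [dif_pos hi] at hne
    by_contra hc
    push Not at hc
    apply hne
    set u : U := e.symm (Pi.single ⟨i, hi⟩ 1) with hu
    have h1 : ∀ f ∈ Submodule.span k (v '' {i | i ∈ P ∧ c i ≤ c j}), f u = 0 := by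
      intro f hf
      induction hf using Submodule.span_induction with
      | mem x hx =>
        obtain ⟨i', hi', rfl⟩ := hx
        have h2 : e u ⟨i', hi'.1⟩ = (Pi.single ⟨i, hi⟩ (1 : k) : P → k) ⟨i', hi'.1⟩ := by
          rw [hu, LinearEquiv.apply_symm_apply]
        have h3 : (⟨i', hi'.1⟩ : P) ≠ ⟨i, hi⟩ := by
          intro h
          have h4 := Subtype.ext_iff.1 h
          simp only at h4
          rw [h4] at hi'
          exact absurd hi'.2 (not_le.2 hc)
        rw [Pi.single_apply, if_neg h3] at h2
        exact h2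
      | zero => rfl
      | add x y _ _ hx hy => rw [LinearMap.add_apply, hx, hy, add_zero]
      | smul a x _ hx => rw [LinearMap.smul_apply, hx, smul_zero]
    exact h1 _ (hsp j (Finset.mem_univ j))

end Pool.Agent.Q4.Gcd
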