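import Mathlib
import Pool.Agent.Q4.Blk.Fam
import Pool.Agent.Q4.Gcd.Basis

set_option autoImplicit false
set_option linter.unusedSectionVars false

/-!
# The subspace theorem for a subspace of combinations with a common divisor
-/

namespace Pool.Agent.Q4.Gcd

open Filter Topology Pool.Agent.TH932.Abs Pool.Agent.TH932.Germs Pool.Agent.TH932.Chi
open Pool.Agent.TH796.AL Pool.Agent.Q4.Blk Module

variable {m : ℕ} {B : Base m} {L : ℕ → ℝ} (hL : Tendsto L atTop atTop)

lemma rat_coe (q : ℚ) : (((q : KK L hL)) : GG) = (q : GG) := by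
  exact SubfieldClass.coe_ratCast (KK L hL) q

/-- constant germs -/
noncomputable def cstG : ℚ →+* GG where
  toFun q := gm fun _ => q
  map_one' := gm_one
  map_zero' := gm_zero
  map_mul' _ _ := (gm_mul _ _).symm
  map_add' _ _ := (gm_add _ _).symm

lemma rat_gm (q : ℚ) : (q : GG) = gm (fun _ => q) := (eq_ratCast cstG q).symm

lemma rho_rat (q : ℚ) : rho (q : GG) = algebraMap ℝ HR (q : ℝ) := by
  rw [rat_gm, rho_gm, cst_eq]

lemma filt_sum {v : Option (Fin m)} {t : ℝ} {ι : Type*} (s : Finset ι) (f : ι → GG)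
    (h : ∀ i ∈ s, f i ∈ Sv B L v t) (hL : Tendsto L atTop atTop) :
    ∑ i ∈ s, f i ∈ Sv B L v t := by
  classical
  induction s using Finset.induction_on with
  | empty => exact (filt_v (B := B) hL v).zero_mem _
  | insert i s hi ih =>
    rw [Finset.sum_insert hi]
    exact (filt_v (B := B) hL v).add_mem (h i (Finset.mem_insert_self _ _))
      (ih fun j hj => h j (Finset.mem_insert_of_mem hj))

/-- **The core**: the divisor of a large space of combinations of near-extremal points is small. -/
theorem core (F : IntermediateField ℚ ℝ) [FiniteDimensional ℚ F] {ι : Type} [Fintype ι]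
    [DecidableEq ι] (x : ι → GG) (z : ι → HR)
    (M : ι → ι → F) (hM : ∀ i k, ∑ j, M i j * M j k = if i = k then 1 else 0)
    (hz : ∀ i, z i = ∑ j, algebraMap ℝ HR (M i j : ℝ) * rho (x j))
    (hx : ∀ c : ι → KK L hL, ∑ i, (c i : GG) * x i = 0 → ∀ i, c i = 0)
    (g0 : Fin m → ℝ) (hg0 : ∀ v, 0 ≤ lv B (some v) g0)
    (wt : ι → ℝ) (W : ℝ) (hwt : ∀ i, 0 ≤ wt i) (hW : ∀ i, wt i ≤ W)
    (hxv : ∀ v i, x i ∈ Sv B L (some v) (wt i * lv B (some v) g0))
    (hzi : ∀ i, z i ∈ SR L (wt i * lv B none g0)) (C : ℝ) (hC : ∀ i, rho (x i) ∈ SR L (-C))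
    (U : Submodule ℚ (ι → ℚ)) (D : GG) (hD0 : D ≠ 0) (hDv : ∀ v, D⁻¹ ∈ Sv B L (some v) 0)
    (hDi : ∀ u ∈ U, Sint B L (D⁻¹ * ∑ i, (u i : GG) * x i))
    (δ : ℝ) (hδ : rho D⁻¹ ∈ SR L δ) :
    finrank ℚ U * δ ≤ (Fintype.card ι - finrank ℚ U) * (W * (-lv B none g0)) := by
  classical
  have hlam : ∑ v, lv B (some v) g0 = -lv B none g0 := by
    have := lv_sum (B := B) g0
    rw [Fintype.sum_option] at this
    linarith
  have hlam0 : 0 ≤ -lv B none g0 := by
    rw [← hlam]
    exact Finset.sum_nonneg fun v _ => hg0 v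
  obtain ⟨P, b, hPc, hbU, hbδ, hbw⟩ := adapted U wt
  -- the rows over the number field
  set r : P → ι → F := fun i j => ∑ a, algebraMap ℚ F (b i.1 a) * M a j with hr
  have hrM : ∀ (i : P) (k : ι), ∑ j, r i j * M j k = algebraMap ℚ F (b i.1 k) := by
    intro i k
    rw [hr]
    simp only [Finset.sum_mul]
    rw [Finset.sum_comm]
    have h1 : ∀ a, ∑ j, algebraMap ℚ F (b i.1 a) * M a j * M j k
        = algebraMap ℚ F (b i.1 a) * (if a = k then 1 else 0) := by
      intro a
      rw [← hM a k, Finset.mul_sum]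
      exact Finset.sum_congr rfl fun j _ => mul_assoc _ _ _
    simp only [h1]
    simp
  have hrli : LinearIndependent F r := by
    rw [Fintype.linearIndependent_iff]
    intro c hc i0
    have h1 : ∀ k, ∑ i : P, c i * algebraMap ℚ F (b i.1 k) = 0 := by
      intro k
      have h2 : ∑ j, (∑ i : P, c i • r i) j * M j k = 0 := by
        rw [hc]; simp
      rw [← h2]
      simp only [Finset.sum_apply, Pi.smul_apply, smul_eq_mul, Finset.sum_mul]
      rw [Finset.sum_comm]
      refine Finset.sum_congr rfl fun i _ => ?_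
      rw [← hrM i k, Finset.mul_sum]
      exact Finset.sum_congr rfl fun j _ => (mul_assoc _ _ _).symm
    have h2 := h1 i0.1
    rw [Finset.sum_eq_single i0] at h2
    · rw [hbδ _ i0.2 _ i0.2, if_pos rfl, map_one, mul_one] at h2
      exact h2
    · intro i _ hne
      rw [hbδ _ i.2 _ i0.2, if_neg (fun h => hne (Subtype.ext h)), map_zero, mul_zero]
    · intro h
      exact absurd (Finset.mem_univ _) h
  set W' : Submodule F (ι → F) := Submodule.span F (Set.range r) with hW'
  have hW'r : finrank F W' = P.card := by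
    rw [hW', finrank_span_eq_card hrli, Fintype.card_coe]
  obtain ⟨P', b', hPc', hbW', hbδ', hbw'⟩ := adapted W' (fun i => -wt i)
  have hcard : Fintype.card P = Fintype.card P' := by
    rw [Fintype.card_coe, Fintype.card_coe, hPc', hW'r]
  set e : P ≃ P' := Fintype.equivOfCardEq hcard with he
  have hγ : ∀ i : P, ∃ γ : P → F, ∑ j, γ j • r j = b' (e i).1 := by
    intro i
    exact (Submodule.mem_span_range_iff_exists_fun F).1 (hbW' _ (e i).2)
  choose γ hγ using hγ
  -- relations between the `z`
  have hxA := ind_KA hL F x hx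
  have hcoe : ∀ a : F, ((algebraMap F (KA F hL) a : KA F hL) : HR) = algebraMap ℝ HR (a : ℝ) :=
    fun a => rfl
  have hzA : ∀ a : ι → KA F hL, ∑ i, (a i : HR) * z i = 0 → ∀ i, a i = 0 := by
    intro a ha k
    have h1 : ∀ j : ι, ∑ i, a i * algebraMap F (KA F hL) (M i j) = 0 := by
      apply hxA
      rw [← ha]
      simp only [hz, Finset.mul_sum]
      rw [Finset.sum_comm]
      refine Finset.sum_congr rfl fun i _ => ?_
      rw [AddSubmonoidClass.coe_finsetSum, Finset.sum_mul]
      refine Finset.sum_congr rfl fun j _ => ?_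
      rw [MulMemClass.coe_mul, hcoe, mul_assoc]
    have h2 : a k = ∑ j, (∑ i, a i * algebraMap F (KA F hL) (M i j))
        * algebraMap F (KA F hL) (M j k) := by
      simp only [Finset.sum_mul]
      rw [Finset.sum_comm]
      have h3 : ∀ i, ∑ j, a i * algebraMap F (KA F hL) (M i j) * algebraMap F (KA F hL) (M j k)
          = a i * (if i = k then 1 else 0) := by
        intro i
        have h4 := congrArg (algebraMap F (KA F hL)) (hM i k)
        rw [map_sum] at h4
        simp only [map_mul] at h4
        have h5 : (algebraMap F (KA F hL) (if i = k then 1 else 0)) = if i = k then 1 else 0 := by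
          split_ifs <;> simp
        rw [h5] at h4
        rw [← h4, Finset.mul_sum]
        exact Finset.sum_congr rfl fun j _ => mul_assoc _ _ _
      simp only [h3]
      simp
    rw [h2]
    refine Finset.sum_eq_zero fun j _ => ?_
    rw [h1 j, zero_mul]
  have hrD0 : rho D⁻¹ ≠ 0 := by
    rw [map_ne_zero]
    exact inv_ne_zero hD0
  have key := mova_thm m B L hL F inferInstance P inferInstance
    (fun i => D⁻¹ * ∑ a, (b i.1 a : GG) * x a)
    (fun i => rho D⁻¹ * ∑ a, algebraMap ℝ HR (b' (e i).1 a : ℝ) * z a)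
    (fun v i => wt i.1 * lv B (some v) g0) (fun i => wt (e i).1 * lv B none g0 + δ)
    ?_ ?_ ?_ ?_ ?_ ?_ (C - δ) ?_
  · -- the sums
    have e1 : ∑ v, ∑ i : P, wt i.1 * lv B (some v) g0 = (∑ i ∈ P, wt i) * (-lv B none g0) := by
      rw [← hlam, Finset.mul_sum]
      refine Finset.sum_congr rfl fun v _ => ?_
      rw [Finset.sum_mul]
      exact Finset.sum_coe_sort P (fun i => wt i * lv B (some v) g0)
    have e2 : ∑ i : P, (wt (e i).1 * lv B none g0 + δ)
        = (∑ i ∈ P', wt i) * lv B none g0 + P.card * δ := by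
      rw [Finset.sum_add_distrib]
      congr 1
      · rw [Equiv.sum_comp e (fun i : P' => wt i.1 * lv B none g0), Finset.sum_mul]
        exact Finset.sum_coe_sort P' (fun i => wt i * lv B none g0)
      · simp
    rw [e1, e2] at key
    have e3 : ∑ i ∈ P', wt i ≤ ∑ i, wt i :=
      Finset.sum_le_sum_of_subset_of_nonneg (Finset.subset_univ _) fun i _ _ => hwt i
    have e4 : ∑ i, wt i = ∑ i ∈ P, wt i + ∑ i ∈ Pᶜ, wt i := (Finset.sum_add_sum_compl P wt).symm
    have e5 : ∑ i ∈ Pᶜ, wt i ≤ (Fintype.card ι - P.card) * W := by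
      have h1 := Finset.sum_le_card_nsmul Pᶜ wt W (fun i _ => hW i)
      rw [Finset.card_compl, nsmul_eq_mul, Nat.cast_sub (Finset.card_le_univ P)] at h1
      exact h1
    have e6 : ∑ i ∈ P', wt i - ∑ i ∈ P, wt i ≤ (Fintype.card ι - P.card) * W := by linarith
    have e7 := mul_le_mul_of_nonneg_right e6 hlam0
    rw [← hPc]
    nlinarith
  · -- independence of the elements
    intro c hc i0
    have h1 := hx (fun a => ∑ i : P, c i * (b i.1 a : KK L hL)) (by
      have h2 : D⁻¹ * ∑ a, ((∑ i : P, c i * (b i.1 a : KK L hL) : KK L hL) : GG) * x a = 0 := by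
        rw [← hc]
        simp only [Finset.mul_sum]
        rw [Finset.sum_comm]
        refine Finset.sum_congr rfl fun a _ => ?_
        rw [AddSubmonoidClass.coe_finsetSum, Finset.sum_mul, Finset.mul_sum]
        refine Finset.sum_congr rfl fun i _ => ?_
        rw [MulMemClass.coe_mul, rat_coe]
        ring
      exact (mul_eq_zero.1 h2).resolve_left (inv_ne_zero hD0)) i0.1
    rw [Finset.sum_eq_single i0] at h1
    · rw [hbδ _ i0.2 _ i0.2, if_pos rfl, Rat.cast_one, mul_one] at h1
      exact h1
    · intro i _ hne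
      rw [hbδ _ i.2 _ i0.2, if_neg (fun h => hne (Subtype.ext h)), Rat.cast_zero, mul_zero]
    · intro h
      exact absurd (Finset.mem_univ _) h
  · -- independence of the forms
    intro c hc i0
    have h1 := hzA (fun a => ∑ i : P, c i * algebraMap F (KA F hL) (b' (e i).1 a)) (by
      have h2 : rho D⁻¹ * ∑ a, ((∑ i : P, c i * algebraMap F (KA F hL) (b' (e i).1 a) : KA F hL) : HR)
          * z a = 0 := by
        rw [← hc]
        simp only [Finset.mul_sum]
        rw [Finset.sum_comm]
        refine Finset.sum_congr rfl fun a _ => ?_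
        rw [AddSubmonoidClass.coe_finsetSum, Finset.sum_mul, Finset.mul_sum]
        refine Finset.sum_congr rfl fun i _ => ?_
        rw [MulMemClass.coe_mul, hcoe]
        ring
      exact (mul_eq_zero.1 h2).resolve_left hrD0) (e i0).1
    rw [Finset.sum_eq_single i0] at h1
    · rw [hbδ' _ (e i0).2 _ (e i0).2, if_pos rfl, map_one, mul_one] at h1
      exact h1
    · intro i _ hne
      rw [hbδ' _ (e i).2 _ (e i0).2, if_neg (fun h => hne (e.injective (Subtype.ext h))), map_zero,
        mul_zero]
    · intro h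
      exact absurd (Finset.mem_univ _) h
  · -- the span
    intro i
    refine ⟨fun j => algebraMap F (KA F hL) (γ i j), ?_⟩
    have h1 : ∑ a, algebraMap ℝ HR (b' (e i).1 a : ℝ) * z a
        = ∑ j : P, algebraMap ℝ HR (γ i j : ℝ) * ∑ k, algebraMap ℝ HR (b j.1 k : ℝ) * rho (x k) := by
      have h2 : ∀ k, ∑ a, b' (e i).1 a * M a k = ∑ j : P, γ i j * algebraMap ℚ F (b j.1 k) := by
        intro k
        rw [← hγ i]
        simp only [Finset.sum_apply, Pi.smul_apply, smul_eq_mul, Finset.sum_mul]
        rw [Finset.sum_comm]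
        refine Finset.sum_congr rfl fun j _ => ?_
        rw [← hrM j k, Finset.mul_sum]
        exact Finset.sum_congr rfl fun a _ => mul_assoc _ _ _
      have h3 : ∑ a, algebraMap ℝ HR (b' (e i).1 a : ℝ) * z a
          = ∑ k, algebraMap ℝ HR ((∑ a, b' (e i).1 a * M a k : F) : ℝ) * rho (x k) := by
        simp only [hz, Finset.mul_sum]
        rw [Finset.sum_comm]
        refine Finset.sum_congr rfl fun k _ => ?_
        rw [AddSubmonoidClass.coe_finsetSum, map_sum, Finset.sum_mul]
        refine Finset.sum_congr rfl fun a _ => ?_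
        rw [MulMemClass.coe_mul, map_mul]
        ring
      rw [h3]
      simp only [h2, Finset.mul_sum]
      rw [Finset.sum_comm]
      refine Finset.sum_congr rfl fun k _ => ?_
      rw [AddSubmonoidClass.coe_finsetSum, map_sum, Finset.sum_mul]
      refine Finset.sum_congr rfl fun j _ => ?_
      rw [MulMemClass.coe_mul, map_mul]
      have h4 : ((algebraMap ℚ F (b j.1 k) : F) : ℝ) = (b j.1 k : ℝ) := rfl
      rw [h4]
      ring
    rw [h1, Finset.mul_sum]
    refine Finset.sum_congr rfl fun j _ => ?_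
    rw [hcoe, map_mul, map_sum]
    simp only [map_mul, rho_rat]
    ring
  · -- finite places
    intro v i
    have h1 : ∑ a, (b i.1 a : GG) * x a ∈ Sv B L (some v) (wt i.1 * lv B (some v) g0) := by
      refine filt_sum _ _ (fun a _ => ?_) hL
      by_cases hb : b i.1 a = 0
      · rw [hb, Rat.cast_zero, zero_mul]
        exact (filt_v (B := B) hL (some v)).zero_mem _
      · have h2 := (filt_v (B := B) hL (some v)).mul_mem
          ((filt_v (B := B) hL (some v)).alg_mem ((b i.1 a : ℚ) : KK L hL)) (hxv v a)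
        rw [zero_add] at h2
        have h3 : algebraMap (KK L hL) GG ((b i.1 a : ℚ) : KK L hL) = (b i.1 a : GG) := rat_coe hL _
        rw [h3] at h2
        exact (filt_v (B := B) hL (some v)).anti
          (mul_le_mul_of_nonneg_right (hbw _ i.2 a hb) (hg0 v)) h2
    have h2 := (filt_v (B := B) hL (some v)).mul_mem (hDv v) h1
    rwa [zero_add] at h2
  · -- the real place
    intro i
    have h1 : ∑ a, algebraMap ℝ HR (b' (e i).1 a : ℝ) * z a ∈ SR L (wt (e i).1 * lv B none g0) := by
      refine SR_sum hL _ _ fun a _ => ?_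
      by_cases hb : b' (e i).1 a = 0
      · rw [hb]
        have h0 : ((0 : F) : ℝ) = 0 := rfl
        rw [h0, map_zero, zero_mul]
        have h2 := SR_mul hL (SR_cst hL 0) (hzi (e i).1)
        rw [map_zero, zero_mul, zero_add] at h2
        exact h2
      · have h2 := SR_mul hL (SR_cst hL (b' (e i).1 a : ℝ)) (hzi a)
        rw [zero_add] at h2
        refine SR_anti hL ?_ h2
        have h3 := hbw' _ (e i).2 a hb
        simp only [neg_le_neg_iff] at h3
        nlinarith
    have h2 := SR_mul hL hδ h1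
    rwa [add_comm] at h2
  · intro i
    exact hDi _ (hbU _ i.2)
  · intro i
    rw [map_mul]
    have h1 : rho (∑ a, (b i.1 a : GG) * x a) ∈ SR L (-C) := by
      rw [map_sum]
      refine SR_sum hL _ _ fun a _ => ?_
      rw [map_mul, rho_rat]
      have h2 := SR_mul hL (SR_cst hL (b i.1 a : ℝ)) (hC a)
      rwa [zero_add] at h2
    have h2 := SR_mul hL hδ h1
    have h3 : -(C - δ) = δ + -C := by ring
    rw [h3]
    exact h2

end Pool.Agent.Q4.Gcd
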