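import Mathlib

set_option autoImplicit false
set_option linter.unusedSectionVars false

/-!
# The dimension of the ideal of two coprime polynomials in given degree
-/

namespace Pool.Agent.Q4.Gcd

open Finset Module MvPolynomial

/-- exponents of degree at most `d` -/
def Ex (τ : Type) [Fintype τ] [DecidableEq τ] (d : ℕ) : Finset (τ → ℕ) :=
  (Fintype.piFinset fun _ : τ => Finset.range (d + 1)).filter (fun a => ∑ i, a i ≤ d)

variable {τ : Type} [Fintype τ] [DecidableEq τ]

lemma mem_Ex {d : ℕ} {a : τ → ℕ} : a ∈ Ex τ d ↔ ∑ i, a i ≤ d := by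
  unfold Ex
  rw [Finset.mem_filter, Fintype.mem_piFinset]
  constructor
  · exact fun h => h.2
  · refine fun h => ⟨fun i => ?_, h⟩
    rw [Finset.mem_range]
    have := Finset.single_le_sum (f := a) (fun _ _ => Nat.zero_le _) (Finset.mem_univ i)
    omega

lemma card_ge {d : ℕ} (b : τ → ℕ) (hb : ∑ i, b i ≤ d) :
    ((Ex τ d).filter (fun a => ∀ i, b i ≤ a i)).card = (Ex τ (d - ∑ i, b i)).card := by
  have h : (Ex τ d).filter (fun a => ∀ i, b i ≤ a i)
      = (Ex τ (d - ∑ i, b i)).image (fun a => a + b) := by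
    ext a
    rw [Finset.mem_filter, Finset.mem_image, mem_Ex]
    constructor
    · rintro ⟨h1, h2⟩
      refine ⟨a - b, ?_, ?_⟩
      · rw [mem_Ex]
        have : ∑ i, (a - b) i + ∑ i, b i = ∑ i, a i := by
          rw [← Finset.sum_add_distrib]
          exact Finset.sum_congr rfl fun i _ => Nat.sub_add_cancel (h2 i)
        omega
      · funext i
        exact Nat.sub_add_cancel (h2 i)
    · rintro ⟨c, hc, rfl⟩
      rw [mem_Ex] at hc
      refine ⟨?_, fun i => Nat.le_add_left _ _⟩
      simp only [Pi.add_apply, Finset.sum_add_distrib]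
      omega
  rw [h, Finset.card_image_of_injective _ (add_left_injective b)]

lemma card_lt (d f g : ℕ) {i j : τ} (hij : i ≠ j) :
    ((Ex τ d).filter (fun a => a i < f ∧ a j < g)).card ≤ f * g * (d + 1) ^ (Fintype.card τ - 2) := by
  have h1 : (Ex τ d).filter (fun a => a i < f ∧ a j < g) ⊆
      Fintype.piFinset (fun k => Finset.range (if k = i then f else if k = j then g else d + 1)) := by
    intro a ha
    rw [Finset.mem_filter, mem_Ex] at ha
    rw [Fintype.mem_piFinset]
    intro k
    rw [Finset.mem_range]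
    split_ifs with h h'
    · rw [h]; exact ha.2.1
    · rw [h']; exact ha.2.2
    · have := Finset.single_le_sum (f := a) (fun _ _ => Nat.zero_le _) (Finset.mem_univ k)
      omega
  refine (Finset.card_le_card h1).trans ?_
  rw [Fintype.card_piFinset]
  simp only [Finset.card_range]
  rw [← Finset.mul_prod_erase _ _ (Finset.mem_univ i), if_pos rfl]
  have hj : j ∈ (Finset.univ : Finset τ).erase i := Finset.mem_erase.2 ⟨hij.symm, Finset.mem_univ j⟩
  rw [← Finset.mul_prod_erase _ _ hj, if_neg hij.symm, if_pos rfl, ← mul_assoc]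
  apply le_of_eq
  congr 1
  have h2 : ∀ k ∈ ((Finset.univ : Finset τ).erase i).erase j,
      (if k = i then f else if k = j then g else d + 1) = d + 1 := by
    intro k hk
    have h3 := Finset.ne_of_mem_erase hk
    have h4 := Finset.ne_of_mem_erase (Finset.mem_of_mem_erase hk)
    rw [if_neg h4, if_neg h3]
  rw [Finset.prod_congr rfl h2, Finset.prod_const, Finset.card_erase_of_mem hj,
    Finset.card_erase_of_mem (Finset.mem_univ i), Finset.card_univ]
  rfl

lemma card_eq {d f g : ℕ} (hd : f + g ≤ d) {i j : τ} (hij : i ≠ j) :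
    (Ex τ d).card + (Ex τ (d - f - g)).card = (Ex τ (d - f)).card + (Ex τ (d - g)).card
      + ((Ex τ d).filter (fun a => a i < f ∧ a j < g)).card := by
  have hs : ∀ (k : τ) (r : ℕ) (a : τ → ℕ), (∀ l, (Pi.single k r : τ → ℕ) l ≤ a l) ↔ r ≤ a k := by
    intro k r a
    constructor
    · intro h
      have := h k
      rwa [Pi.single_eq_same] at this
    · intro h l
      by_cases hl : l = k
      · rw [hl, Pi.single_eq_same]; exact h
      · rw [Pi.single_eq_of_ne hl]; exact Nat.zero_le _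
  have h1 := card_ge (d := d) (Pi.single i f : τ → ℕ) (by simp; omega)
  have h2 := card_ge (d := d) (Pi.single j g : τ → ℕ) (by simp; omega)
  have h3 := card_ge (d := d) (Pi.single i f + Pi.single j g : τ → ℕ)
    (by simp [Finset.sum_add_distrib]; omega)
  simp only [Finset.sum_pi_single', Finset.mem_univ, if_true, Pi.add_apply,
    Finset.sum_add_distrib] at h1 h2 h3
  have h3' : (Ex τ d).filter (fun a => ∀ l, (Pi.single i f : τ → ℕ) l + (Pi.single j g : τ → ℕ) l
      ≤ a l) = (Ex τ d).filter (fun a => f ≤ a i ∧ g ≤ a j) := by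
    apply Finset.filter_congr
    intro a _
    constructor
    · intro h
      constructor
      · have := h i
        simp only [Pi.single_eq_same, Pi.single_eq_of_ne hij] at this
        simpa using this
      · have := h j
        simp only [Pi.single_eq_same, Pi.single_eq_of_ne hij.symm] at this
        simpa using this
    · rintro ⟨h4, h5⟩ k
      by_cases hk : k = i
      · subst hk
        rw [Pi.single_eq_same, Pi.single_eq_of_ne hij]; simpa using h4
      · by_cases hk' : k = j
        · subst hk'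
          rw [Pi.single_eq_same, Pi.single_eq_of_ne hij.symm]; simpa using h5
        · rw [Pi.single_eq_of_ne hk, Pi.single_eq_of_ne hk']; simp
  rw [h3'] at h3
  simp only [hs] at h1 h2
  have h4 : ((Ex τ d).filter (fun a => f ≤ a i ∨ g ≤ a j)).card
      + ((Ex τ d).filter (fun a => f ≤ a i ∧ g ≤ a j)).card
      = ((Ex τ d).filter (fun a => f ≤ a i)).card + ((Ex τ d).filter (fun a => g ≤ a j)).card := by
    rw [Finset.filter_or, Finset.filter_and, Finset.card_union_add_card_inter]
  have h5 : ((Ex τ d).filter (fun a => f ≤ a i ∨ g ≤ a j)).card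
      + ((Ex τ d).filter (fun a => ¬ (f ≤ a i ∨ g ≤ a j))).card = (Ex τ d).card :=
    Finset.card_filter_add_card_filter_not _
  have h6 : (Ex τ d).filter (fun a => ¬ (f ≤ a i ∨ g ≤ a j))
      = (Ex τ d).filter (fun a => a i < f ∧ a j < g) := by
    apply Finset.filter_congr
    intro a _
    push Not
    rfl
  rw [h6] at h5
  have h7 : d - f - g = d - (f + g) := by omega
  rw [h7, ← h3, ← h1, ← h2]
  omega

lemma card_big (e : ℕ) : (e + 1) ^ (Fintype.card τ) ≤ (Ex τ (Fintype.card τ * e)).card := by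
  have h1 : (Fintype.piFinset fun _ : τ => Finset.range (e + 1)) ⊆ Ex τ (Fintype.card τ * e) := by
    intro a ha
    rw [Fintype.mem_piFinset] at ha
    rw [mem_Ex]
    have : ∑ i, a i ≤ ∑ _i : τ, e := Finset.sum_le_sum fun i _ => by
      have := ha i
      rw [Finset.mem_range] at this
      omega
    simpa using this
  have h2 := Finset.card_le_card h1
  rw [Fintype.card_piFinset] at h2
  simpa using h2

/-- the exponent as a finitely supported function -/
noncomputable abbrev fs (a : τ → ℕ) : τ →₀ ℕ := Finsupp.equivFunOnFinite.symm a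

lemma fs_coe (n : τ →₀ ℕ) : fs (n : τ → ℕ) = n := by ext; rfl

lemma sum_fs (n : τ →₀ ℕ) : (n.sum fun _ e => e) = ∑ i, n i := by
  rw [Finsupp.sum_fintype]
  simp

lemma finrank_T (k : ℕ) : finrank ℚ (restrictTotalDegree τ ℚ k) = (Ex τ k).card := by
  unfold restrictTotalDegree
  rw [Module.finrank_eq_nat_card_basis (basisRestrictSupport ℚ _)]
  have e : ({n : τ →₀ ℕ | (n.sum fun _ e => e) ≤ k} : Set _) ≃ Ex τ k :=
    { toFun := fun n => ⟨(n.1 : τ → ℕ), by
        rw [mem_Ex, ← sum_fs]; exact n.2⟩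
      invFun := fun a => ⟨fs a.1, by
        change (Finsupp.sum _ _) ≤ k
        rw [sum_fs]; exact mem_Ex.1 a.2⟩
      left_inv := fun n => by ext; rfl
      right_inv := fun a => by ext; rfl }
  rw [Nat.card_congr e]
  simp

instance fin_T (k : ℕ) : FiniteDimensional ℚ (restrictTotalDegree τ ℚ k) := by
  have e : ({n : τ →₀ ℕ | (n.sum fun _ e => e) ≤ k} : Set _) ≃ Ex τ k :=
    { toFun := fun n => ⟨(n.1 : τ → ℕ), by
        rw [mem_Ex, ← sum_fs]; exact n.2⟩
      invFun := fun a => ⟨fs a.1, by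
        change (Finsupp.sum _ _) ≤ k
        rw [sum_fs]; exact mem_Ex.1 a.2⟩
      left_inv := fun n => by ext; rfl
      right_inv := fun a => by ext; rfl }
  have : Finite ({n : τ →₀ ℕ | (n.sum fun _ e => e) ≤ k} : Set _) := Finite.of_equiv _ e.symm
  exact Module.Finite.of_basis (basisRestrictSupport ℚ _)

/-- the coefficients of degree at most `d` -/
noncomputable def cf (d : ℕ) : MvPolynomial τ ℚ →ₗ[ℚ] (Ex τ d → ℚ) :=
  LinearMap.pi (fun a => lcoeff ℚ (fs a.1))

lemma cf_apply (d : ℕ) (P : MvPolynomial τ ℚ) (a : Ex τ d) : cf d P a = coeff (fs a.1) P := rfl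

lemma cf_inj {d : ℕ} {P : MvPolynomial τ ℚ} (hP : P.totalDegree ≤ d) (h : cf d P = 0) : P = 0 := by
  ext n
  rw [coeff_zero]
  by_cases hn : ∑ i, n i ≤ d
  · have := congrFun h ⟨(n : τ → ℕ), mem_Ex.2 hn⟩
    rw [cf_apply] at this
    rwa [fs_coe] at this
  · by_contra hc
    apply hn
    have h1 : n ∈ P.support := mem_support_iff.2 hc
    have h2 := le_totalDegree h1
    rw [sum_fs] at h2
    exact h2.trans hP

lemma eval_cf {A : Type*} [CommRing A] [Algebra ℚ A] {d : ℕ} {P : MvPolynomial τ ℚ}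
    (hP : P.totalDegree ≤ d) (x : τ → A) :
    aeval x P = ∑ a : Ex τ d, algebraMap ℚ A (cf d P a) * ∏ i, x i ^ (a.1 i) := by
  rw [MvPolynomial.aeval_def, MvPolynomial.eval₂_eq']
  have h0 : ∑ a : Ex τ d, algebraMap ℚ A (cf d P a) * ∏ i, x i ^ (a.1 i)
      = ∑ a ∈ Ex τ d, algebraMap ℚ A (coeff (fs a) P) * ∏ i, x i ^ (a i) :=
    Finset.sum_coe_sort (Ex τ d) (fun a => algebraMap ℚ A (coeff (fs a) P) * ∏ i, x i ^ (a i))
  rw [h0]
  have h1 : ∑ n ∈ P.support, algebraMap ℚ A (coeff n P) * ∏ i, x i ^ n i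
      = ∑ a ∈ P.support.image (fun n : τ →₀ ℕ => (n : τ → ℕ)),
        algebraMap ℚ A (coeff (fs a) P) * ∏ i, x i ^ a i := by
    rw [Finset.sum_image (by
      intro a _ b _ h
      exact DFunLike.coe_injective h)]
    refine Finset.sum_congr rfl fun n _ => ?_
    rw [fs_coe]
  rw [h1]
  apply Finset.sum_subset
  · intro a ha
    obtain ⟨n, hn, rfl⟩ := Finset.mem_image.1 ha
    rw [mem_Ex]
    have := le_totalDegree hn
    rw [sum_fs] at this
    exact this.trans hP
  · intro a _ ha
    have : fs a ∉ P.support := fun h => ha (Finset.mem_image.2 ⟨_, h, rfl⟩)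
    rw [notMem_support_iff.1 this, map_zero, zero_mul]

/-- the combinations `A F` -/
noncomputable def mulT (F : MvPolynomial τ ℚ) (k : ℕ) : Submodule ℚ (MvPolynomial τ ℚ) :=
  (restrictTotalDegree τ ℚ k).map (LinearMap.mulLeft ℚ F)

lemma mulLeft_inj {F : MvPolynomial τ ℚ} (hF : F ≠ 0) :
    Function.Injective (LinearMap.mulLeft ℚ F) := by
  intro a b h
  exact mul_left_cancel₀ hF h

instance (F : MvPolynomial τ ℚ) (k : ℕ) : FiniteDimensional ℚ (mulT F k) := by
  unfold mulT
  infer_instance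

lemma finrank_mulT {F : MvPolynomial τ ℚ} (hF : F ≠ 0) (k : ℕ) :
    finrank ℚ (mulT F k) = (Ex τ k).card := by
  rw [← finrank_T]
  exact (LinearEquiv.finrank_eq (Submodule.equivMapOfInjective _ (mulLeft_inj hF) _)).symm

lemma mulT_deg {F : MvPolynomial τ ℚ} {d : ℕ} (hd : F.totalDegree ≤ d) {P : MvPolynomial τ ℚ}
    (hP : P ∈ mulT F (d - F.totalDegree)) : P.totalDegree ≤ d := by
  obtain ⟨A, hA, rfl⟩ := hP
  have h1 : A.totalDegree ≤ d - F.totalDegree := (mem_restrictTotalDegree _ _ _).1 hA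
  have h2 := totalDegree_mul F A
  change (F * A).totalDegree ≤ d
  omega

/-- the combinations of `F` and `G` -/
noncomputable def UU' (F G : MvPolynomial τ ℚ) (d : ℕ) : Submodule ℚ (MvPolynomial τ ℚ) :=
  mulT F (d - F.totalDegree) ⊔ mulT G (d - G.totalDegree)

lemma UU'_deg {F G : MvPolynomial τ ℚ} {d : ℕ} (hF : F.totalDegree ≤ d) (hG : G.totalDegree ≤ d)
    {P : MvPolynomial τ ℚ} (hP : P ∈ UU' F G d) : P.totalDegree ≤ d := by
  obtain ⟨a, ha, b, hb, rfl⟩ := Submodule.mem_sup.1 hP
  exact (totalDegree_add a b).trans (max_le (mulT_deg hF ha) (mulT_deg hG hb))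

lemma UU'_comb {F G : MvPolynomial τ ℚ} {d : ℕ} {P : MvPolynomial τ ℚ} (hP : P ∈ UU' F G d) :
    ∃ A B : MvPolynomial τ ℚ, P = F * A + G * B := by
  obtain ⟨a, ⟨A, _, rfl⟩, b, ⟨B, _, rfl⟩, rfl⟩ := Submodule.mem_sup.1 hP
  exact ⟨A, B, rfl⟩

/-- the space of their coefficients -/
noncomputable def US (F G : MvPolynomial τ ℚ) (d : ℕ) : Submodule ℚ (Ex τ d → ℚ) :=
  (UU' F G d).map (cf d)

/-- **The dimension of the ideal.** -/
theorem finrank_US {F G : MvPolynomial τ ℚ} (hF : F ≠ 0) (hG : G ≠ 0) (hFG : IsRelPrime F G)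
    {d : ℕ} (hd : F.totalDegree + G.totalDegree ≤ d) {i j : τ} (hij : i ≠ j) :
    (Ex τ d).card ≤ finrank ℚ (US F G d)
      + F.totalDegree * G.totalDegree * (d + 1) ^ (Fintype.card τ - 2) := by
  have h1 : finrank ℚ (US F G d) = finrank ℚ (UU' F G d) := by
    have hinj : Function.Injective ((cf d).domRestrict (UU' F G d)) := by
      rw [← LinearMap.ker_eq_bot, LinearMap.ker_eq_bot']
      rintro ⟨P, hP⟩ h
      exact Subtype.ext (cf_inj (UU'_deg (by omega) (by omega) hP) h)
    have h2 := LinearMap.finrank_range_of_inj hinj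
    rw [LinearMap.range_domRestrict] at h2
    exact h2
  have hfd : FiniteDimensional ℚ (UU' F G d) := by unfold UU'; infer_instance
  have h2 : finrank ℚ (UU' F G d)
      + finrank ℚ (mulT F (d - F.totalDegree) ⊓ mulT G (d - G.totalDegree) : Submodule _ _)
      = finrank ℚ (mulT F (d - F.totalDegree)) + finrank ℚ (mulT G (d - G.totalDegree)) :=
    Submodule.finrank_sup_add_finrank_inf_eq _ _
  rw [finrank_mulT hF, finrank_mulT hG] at h2
  have h3 : (mulT F (d - F.totalDegree) ⊓ mulT G (d - G.totalDegree) : Submodule _ _)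
      ≤ mulT (F * G) (d - F.totalDegree - G.totalDegree) := by
    rintro P ⟨hP1, hP2⟩
    have hdeg := mulT_deg (by omega) hP1
    obtain ⟨A, hA, hA'⟩ := hP1
    obtain ⟨B, hB, hB'⟩ := hP2
    have h4 : F ∣ P := ⟨A, hA'.symm⟩
    have h5 : G ∣ P := ⟨B, hB'.symm⟩
    obtain ⟨C, hC⟩ := IsRelPrime.mul_dvd hFG h4 h5
    refine ⟨C, ?_, hC.symm⟩
    change C ∈ restrictTotalDegree τ ℚ _
    rw [mem_restrictTotalDegree]
    by_cases hC0 : C = 0
    · rw [hC0, totalDegree_zero]; exact Nat.zero_le _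
    · rw [hC, totalDegree_mul_of_isDomain (mul_ne_zero hF hG) hC0,
        totalDegree_mul_of_isDomain hF hG] at hdeg
      omega
  have h4 := Submodule.finrank_mono h3
  rw [finrank_mulT (mul_ne_zero hF hG)] at h4
  have h5 := card_eq hd hij
  have h6 := card_lt (τ := τ) d F.totalDegree G.totalDegree hij
  omega

end Pool.Agent.Q4.Gcd
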