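import Mathlib
import Pool.Agent.Q4.Blk.Div
import Pool.Agent.Q4.Gcd.Core
import Pool.Agent.Q4.Gcd.Count

set_option autoImplicit false
set_option linter.unusedSectionVars false

/-!
# Monomials in a unit and truncated products
-/

namespace Pool.Agent.Q4.Gcd

open Filter Topology Pool.Agent.TH932.Abs Pool.Agent.TH932.Germs Pool.Agent.TH932.Chi
open Pool.Agent.TH796.AL Pool.Agent.Q4.Blk Module

variable {m : ℕ} {B : Base m} {L : ℕ → ℝ} (hL : Tendsto L atTop atTop)
variable {F : IntermediateField ℚ ℝ} [FiniteDimensional ℚ F] {σ : Type} [Fintype σ] [DecidableEq σ]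
variable {θ : σ → F} {g0 : Fin m → ℝ} {y : σ → GG}

/-- the exponent of a monomial -/
noncomputable def om (g0 : Fin m → ℝ) (a : Option σ → ℕ) : Om σ m :=
  (fun s => a (some s), ((∑ i, a i : ℕ) : ℝ) • g0)

/-- the monomial -/
noncomputable def Xh (κ : KK L hL) (g0 : Fin m → ℝ) (y : σ → GG) (B : Base m)
    (a : Option σ → ℕ) : GG := (κ : GG) ^ (∑ i, a i) * xx hL y B (om g0 a)

/-- the form -/
noncomputable def Zh (κ : KK L hL) (g0 : Fin m → ℝ) (θ : σ → F) (y : σ → GG) (B : Base m)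
    (a : Option σ → ℕ) : HR := rho (κ : GG) ^ (∑ i, a i) * zz hL F θ y B (om g0 a)

lemma om_inj (hg1 : lv B none g0 ≠ 0) : Function.Injective (om (σ := σ) g0) := by
  intro a b h
  have h1 := congrArg Prod.fst h
  have h2 := congrArg Prod.snd h
  simp only [om] at h1 h2
  have h3 : ((∑ i, a i : ℕ) : ℝ) = ((∑ i, b i : ℕ) : ℝ) := by
    have h4 := congrArg (lv B none) h2
    rw [lv_smul, lv_smul] at h4
    exact mul_right_cancel₀ hg1 h4
  have h4 : ∑ i, a i = ∑ i, b i := by exact_mod_cast h3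
  rw [Fintype.sum_option, Fintype.sum_option] at h4
  have h5 : ∀ s, a (some s) = b (some s) := fun s => congrFun h1 s
  simp only [h5] at h4
  funext i
  cases i with
  | none => omega
  | some s => exact h5 s

lemma sh_om (a : Option σ → ℕ) : sh (fun _ : σ => g0) (om g0 a) = (a none : ℝ) • g0 := by
  unfold sh om
  simp only []
  rw [Fintype.sum_option, ← Finset.sum_smul]
  push_cast
  rw [add_smul, add_sub_cancel_right]

/-- the exponents in `Om` -/
noncomputable def Omd (σ : Type) [Fintype σ] [DecidableEq σ] (g0 : Fin m → ℝ) (d : ℕ) :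
    Finset (Om σ m) := (Ex (Option σ) d).image (om g0)

lemma Omd_dn (d : ℕ) : Dn (Omd σ g0 d) := by
  intro ω hω J hJ
  unfold Omd at hω ⊢
  obtain ⟨a, ha, rfl⟩ := Finset.mem_image.1 hω
  rw [mem_Ex, Fintype.sum_option] at ha
  have hJs : ∑ s, J s ≤ ∑ s, a (some s) := Finset.sum_le_sum fun s _ => hJ s
  refine Finset.mem_image.2 ⟨fun o => o.elim (a none + ∑ s, a (some s) - ∑ s, J s) J, ?_, ?_⟩
  · rw [mem_Ex, Fintype.sum_option]
    simp only [Option.elim]
    omega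
  · unfold om
    simp only []
    congr 2
    rw [Fintype.sum_option, Fintype.sum_option]
    simp only [Option.elim]
    congr 1
    omega

lemma sum_Omd {A : Type*} [AddCommMonoid A] (hg1 : lv B none g0 ≠ 0) (d : ℕ) (f : Om σ m → A) :
    ∑ ω ∈ Omd σ g0 d, f ω = ∑ a : Ex (Option σ) d, f (om g0 a.1) := by
  unfold Omd
  rw [Finset.sum_image (fun a _ b _ h => om_inj (B := B) hg1 h)]
  exact (Finset.sum_coe_sort (Ex (Option σ) d) (fun a => f (om g0 a))).symm

/-- the matrix of the forms -/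
noncomputable def Mh (θ : σ → F) (a b : Option σ → ℕ) : F :=
  if ∑ i, a i = ∑ i, b i then bin θ (fun s => a (some s)) (fun s => b (some s)) else 0

lemma Mh_Mt (hg1 : lv B none g0 ≠ 0) (a b : Option σ → ℕ) :
    algebraMap F (KA F hL) (Mh θ a b) = Mt hL F θ (om g0 a) (om g0 b) := by
  unfold Mh Mt
  have h : (om g0 a).2 = (om g0 b).2 ↔ ∑ i, a i = ∑ i, b i := by
    constructor
    · intro h
      have h4 := congrArg (lv B none) h
      simp only [om] at h4
      rw [lv_smul, lv_smul] at h4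
      exact_mod_cast mul_right_cancel₀ hg1 h4
    · intro h
      simp only [om, h]
  by_cases h1 : ∑ i, a i = ∑ i, b i
  · rw [if_pos h1, if_pos (h.2 h1)]
    rfl
  · rw [if_neg h1, if_neg (fun h2 => h1 (h.1 h2)), map_zero]

lemma KA_inj : Function.Injective (algebraMap F (KA F hL)) := by
  have : Nontrivial (KA F hL) := inferInstance
  exact (algebraMap F (KA F hL)).injective

include hL in
lemma Mh_sq (hg1 : lv B none g0 ≠ 0) (d : ℕ) (a c : Ex (Option σ) d) :
    ∑ b : Ex (Option σ) d, Mh θ a.1 b.1 * Mh θ b.1 c.1 = if a = c then 1 else 0 := by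
  apply KA_inj hL
  rw [map_sum]
  simp only [map_mul, Mh_Mt hL (B := B) hg1]
  have h1 := Mt_sq hL F θ (Omd_dn (g0 := g0) d) (ω := om g0 a.1)
    (Finset.mem_image.2 ⟨a.1, a.2, rfl⟩) (om g0 c.1)
  rw [sum_Omd (B := B) hg1] at h1
  rw [h1]
  by_cases h : a = c
  · subst h; simp
  · rw [if_neg h, if_neg (fun h2 => h (Subtype.ext (om_inj (B := B) hg1 h2))), map_zero]

lemma Zh_eq (hg1 : lv B none g0 ≠ 0) (κ : KK L hL) (d : ℕ) (a : Ex (Option σ) d) :
    Zh hL κ g0 θ y B a.1 = ∑ b : Ex (Option σ) d, algebraMap ℝ HR (Mh θ a.1 b.1 : ℝ)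
      * rho (Xh hL κ g0 y B b.1) := by
  unfold Zh Xh
  rw [zz_eq hL F θ y (Omd_dn (g0 := g0) d) (ω := om g0 a.1)
    (Finset.mem_image.2 ⟨a.1, a.2, rfl⟩), sum_Omd (B := B) hg1, Finset.mul_sum]
  refine Finset.sum_congr rfl fun b _ => ?_
  rw [← Mh_Mt hL (B := B) hg1]
  have h1 : ((algebraMap F (KA F hL) (Mh θ a.1 b.1) : KA F hL) : HR)
    = algebraMap ℝ HR ((Mh θ a.1 b.1 : F) : ℝ) := rfl
  rw [h1, map_mul, map_pow]
  by_cases h : ∑ i, a.1 i = ∑ i, b.1 i
  · rw [h]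
    ring
  · have h2 : Mh θ a.1 b.1 = 0 := by unfold Mh; rw [if_neg h]
    have h0 : ((0 : F) : ℝ) = 0 := rfl
    rw [h2, h0, map_zero]
    ring

variable (H : Fam B L F θ (fun _ => g0) y) (hg1 : lv B none g0 ≠ 0) {κ : KK L hL} (hκ : κ ≠ 0)

include H hg1 hκ in
/-- independence of the monomials -/
lemma Xh_indep (d : ℕ) (c : Ex (Option σ) d → KK L hL)
    (hc : ∑ a, (c a : GG) * Xh hL κ g0 y B a.1 = 0) : ∀ a, c a = 0 := by
  classical
  set c' : Om σ m → KK L hL := fun ω => if h : ∃ a : Ex (Option σ) d, om g0 a.1 = ω then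
    c h.choose * κ ^ (∑ i, h.choose.1 i) else 0 with hc'
  have h1 : ∀ a : Ex (Option σ) d, c' (om g0 a.1) = c a * κ ^ (∑ i, a.1 i) := by
    intro a
    have h : ∃ b : Ex (Option σ) d, om g0 b.1 = om g0 a.1 := ⟨a, rfl⟩
    have h2 : h.choose = a := Subtype.ext (om_inj (B := B) hg1 h.choose_spec)
    rw [hc']
    simp only []
    rw [dif_pos h, h2]
  intro a
  have h2 := indep hL H _ (Omd σ g0 d) rfl (Omd_dn d) c' (by
    intro ω hω
    rw [hc']
    simp only []
    rw [dif_neg]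
    rintro ⟨a, rfl⟩
    exact hω (Finset.mem_image.2 ⟨a.1, a.2, rfl⟩)) (by
    rw [sum_Omd (B := B) hg1, ← hc]
    refine Finset.sum_congr rfl fun a _ => ?_
    rw [h1]
    unfold Xh
    push_cast
    ring) (om g0 a.1)
  rw [h1] at h2
  exact (mul_eq_zero.1 h2).resolve_right (pow_ne_zero _ hκ)

include H hg1 hκ in
/-- the finite part of a combination of monomials -/
lemma Xh_divis (d : ℕ) (c : Ex (Option σ) d → KK L hL) (e : Fin m → ℝ)
    (hP : ∀ v, ∑ a, (c a : GG) * Xh hL κ g0 y B a.1 ∈ Sv B L (some v) (e v))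
    (a0 : Ex (Option σ) d) (ha0 : c a0 ≠ 0) :
    ∑ v, e v ≤ (a0.1 none : ℝ) * (-lv B none g0) := by
  classical
  set c' : Om σ m → KK L hL := fun ω => if h : ∃ a : Ex (Option σ) d, om g0 a.1 = ω then
    c h.choose * κ ^ (∑ i, h.choose.1 i) else 0 with hc'
  have h1 : ∀ a : Ex (Option σ) d, c' (om g0 a.1) = c a * κ ^ (∑ i, a.1 i) := by
    intro a
    have h : ∃ b : Ex (Option σ) d, om g0 b.1 = om g0 a.1 := ⟨a, rfl⟩
    have h2 : h.choose = a := Subtype.ext (om_inj (B := B) hg1 h.choose_spec)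
    rw [hc']
    simp only []
    rw [dif_pos h, h2]
  have h3 : ∑ ω ∈ Omd σ g0 d, (c' ω : GG) * xx hL y B ω
      = ∑ a, (c a : GG) * Xh hL κ g0 y B a.1 := by
    rw [sum_Omd (B := B) hg1]
    refine Finset.sum_congr rfl fun a _ => ?_
    rw [h1]
    unfold Xh
    push_cast
    ring
  have h2 := divis hL H (Omd σ g0 d) (Omd_dn d) c' e (by
    intro v
    rw [h3]
    exact hP v) (om g0 a0.1) (Finset.mem_image.2 ⟨a0.1, a0.2, rfl⟩) (by
    rw [h1]
    exact mul_ne_zero ha0 (pow_ne_zero _ hκ))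
  rw [sh_om, lv_smul] at h2
  linarith

include H hg1 hκ in
/-- **Common divisors of combinations.** -/
theorem gcd_germ (hg0 : ∀ v, 0 ≤ lv B (some v) g0) {P Q : MvPolynomial (Option σ) ℚ} (d : ℕ)
    (D : GG) (hD0 : D ≠ 0) (hDv : ∀ v, D⁻¹ ∈ Sv B L (some v) 0)
    (hDi : ∀ u ∈ US P Q d, Sint B L (D⁻¹ * ∑ a, (u a : GG) * Xh hL κ g0 y B a.1))
    (δ : ℝ) (hδ : rho D⁻¹ ∈ SR L δ) :
    finrank ℚ (US P Q d) * δ
      ≤ ((Ex (Option σ) d).card - finrank ℚ (US P Q d)) * (d * (-lv B none g0)) := by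
  classical
  obtain ⟨C, hC⟩ := exists_C (B := B) (Omd σ g0 d)
  have hκv : ∀ (v : Option (Fin m)) (k : ℕ), (κ : GG) ^ k ∈ Sv B L v 0 := by
    intro v k
    have := (filt_v (B := B) hL v).alg_mem (κ ^ k)
    have h2 : algebraMap (KK L hL) GG (κ ^ k) = (κ : GG) ^ k := by rw [map_pow]; rfl
    rwa [h2] at this
  have key := core hL F (ι := Ex (Option σ) d) (fun a => Xh hL κ g0 y B a.1)
    (fun a => Zh hL κ g0 θ y B a.1) (fun a b => Mh θ a.1 b.1) (Mh_sq hL (B := B) hg1 d)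
    (Zh_eq hL hg1 κ d) (Xh_indep hL H hg1 hκ d) g0 hg0 (fun a => (a.1 none : ℝ)) (d : ℝ)
    (fun a => Nat.cast_nonneg _) ?_ ?_ ?_ C ?_ (US P Q d) D hD0 hDv hDi δ hδ
  · rw [Fintype.card_coe] at key
    exact key
  · intro a
    have h1 := mem_Ex.1 a.2
    have h2 := Finset.single_le_sum (f := a.1) (fun _ _ => Nat.zero_le _) (Finset.mem_univ none)
    exact_mod_cast h2.trans h1
  · intro v a
    have h1 := (filt_v (B := B) hL (some v)).mul_mem (hκv (some v) (∑ i, a.1 i))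
      (H.x_fin hL v (om g0 a.1))
    rw [sh_om, lv_smul, zero_add] at h1
    exact h1
  · intro a
    have h1 := SR_mul hL (SR_rho (hκv none (∑ i, a.1 i))) (H.z_inf hL (om g0 a.1))
    rw [sh_om, lv_smul, zero_add, map_pow] at h1
    exact h1
  · intro a
    have h1 := SR_mul hL (SR_rho (hκv none (∑ i, a.1 i)))
      (SR_anti hL (hC _ (Finset.mem_image.2 ⟨a.1, a.2, rfl⟩)) (H.x_bd hL (om g0 a.1)))
    rw [zero_add, ← map_mul] at h1
    exact h1

end Pool.Agent.Q4.Gcd
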